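import Pool.Agent.helper56.CY.Spec
import Pool.Agent.helper89.CT.JZ5

/-! Module PRD of project cy (MP_45d809_mp): the state sum is multiplicative. -/

namespace Pool.Agent.CY
open Finset CT

/-- joining preserves closed sets -/
theorem PRD_join {D : Type} [DecidableEq D] {T : Finset D} {e : D → D} (he : ∀ d ∈ T, e d ∈ T)
    {x y : D} (hx : x ∈ T) (hy : y ∈ T) : ∀ d ∈ T, join e x y d ∈ T := by
  intro d hd
  unfold join
  split_ifs
  · exact hd
  · exact he y hy
  · exact he x hx
  · exact he d hd

theorem PRD_off {D : Type} [DecidableEq D] {e : D → D} {x y d : D} (h1 : d ≠ x) (h2 : d ≠ y)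
    (h3 : e d ≠ x) (h4 : e d ≠ y) : join e x y d = e d := by
  unfold join
  rw [if_neg (by tauto), if_neg h3, if_neg h4]

theorem PRD_mem {V : Type} [DecidableEq V] {L : List V} {d : V × Fin 4} :
    d ∈ dts L.toFinset ↔ d.1 ∈ L := by
  unfold dts
  rw [mem_product, List.mem_toFinset]
  simp

theorem PRD (hZCG : ZCG_stmt) : PRD_stmt := by
  intro V _ x L1
  induction L1 with
  | nil =>
    intro L2 e _ _ _
    simp [Z]
  | cons u L1 ih =>
    intro L2 e hnd hact hcl
    have hnd' : u ∉ L1 ++ L2 ∧ (L1 ++ L2).Nodup := by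
      rw [List.cons_append, List.nodup_cons] at hnd
      exact hnd
    have hu1 : u ∉ L1 := fun h => hnd'.1 (List.mem_append_left _ h)
    have hu2 : u ∉ L2 := fun h => hnd'.1 (List.mem_append_right _ h)
    have hcl' : ∀ d : V × Fin 4, d.1 ∈ u :: L1 → (e d).1 ∈ u :: L1 := fun d hd =>
      PRD_mem.1 (hcl d (PRD_mem.2 hd))
    have hd12 : ∀ w, w ∈ u :: L1 → w ∉ L2 := by
      intro w hw hw'
      exact (List.nodup_append.1 hnd).2.2 w hw w hw' rfl
    have key : ∀ t : Fin 3, Z x (L1 ++ L2) (sm e u t) = Z x L1 (sm e u t) * Z x L2 e := by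
      intro t
      have hS : ((u :: L1) ++ L2).toFinset.erase u = (L1 ++ L2).toFinset := by
        ext w
        rw [mem_erase, List.mem_toFinset, List.mem_toFinset, List.cons_append, List.mem_cons]
        constructor
        · rintro ⟨h1, h2 | h2⟩
          · exact absurd h2 h1
          · exact h2
        · intro h2
          refine ⟨?_, Or.inr h2⟩
          rintro rfl
          exact hnd'.1 h2
      have ha : Act (dts (L1 ++ L2).toFinset) (sm e u t) := by
        have h := JZ5_act _ e u t hact (by simp)
        rw [hS] at h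
        exact h
      have hT : ∀ d ∈ dts (u :: L1).toFinset, sm e u t d ∈ dts (u :: L1).toFinset := by
        unfold sm
        have hm : ∀ i : Fin 4, ((u, i) : V × Fin 4) ∈ dts (u :: L1).toFinset := fun i =>
          PRD_mem.2 List.mem_cons_self
        exact PRD_join (PRD_join hcl (hm _) (hm _)) (hm _) (hm _)
      have h1 : ∀ d ∈ dts L1.toFinset, sm e u t d ∈ dts L1.toFinset := by
        intro d hd
        have hd1 : d.1 ∈ L1 := PRD_mem.1 hd
        have h2 := PRD_mem.1 (hT d (PRD_mem.2 (List.mem_cons_of_mem _ hd1)))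
        rw [List.mem_cons] at h2
        rcases h2 with h2 | h2
        · exfalso
          have h3 : sm e u t (sm e u t d) = sm e u t d := by
            by_contra hc
            have h4 := PRD_mem.1 ((ha.2 _).1 hc)
            rw [h2] at h4
            exact hnd'.1 h4
          rw [ha.1] at h3
          rw [← h3] at h2
          rw [h2] at hd1
          exact hu1 hd1
        · exact PRD_mem.2 h2
      have h5 : ∀ d ∈ dts L2.toFinset, sm e u t d = e d := by
        intro d hd
        have hd2 : d.1 ∈ L2 := PRD_mem.1 hd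
        have hdu : d.1 ≠ u := by
          intro h
          rw [h] at hd2
          exact hu2 hd2
        have hed : (e d).1 ≠ u := by
          intro h
          have h6 := hcl' (e d) (by rw [h]; exact List.mem_cons_self)
          rw [hact.1] at h6
          exact hd12 _ h6 hd2
        have n1 : ∀ i : Fin 4, d ≠ (u, i) := by
          rintro i rfl
          exact hdu rfl
        have n2 : ∀ i : Fin 4, e d ≠ (u, i) := by
          intro i h
          rw [h] at hed
          exact hed rfl
        unfold sm
        have e1 : join e (u, (pr t).1) (u, (pr t).2.1) d = e d := PRD_off (n1 _) (n1 _) (n2 _) (n2 _)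
        rw [PRD_off (n1 _) (n1 _) (by rw [e1]; exact n2 _) (by rw [e1]; exact n2 _), e1]
      rw [ih L2 (sm e u t) hnd'.2 ha h1, hZCG V x L2 (sm e u t) e h5]
    have z1 : Z x (u :: (L1 ++ L2)) e = ∑ t : Fin 3, x ^ ls e u t * Z x (L1 ++ L2) (sm e u t) := rfl
    have z2 : Z x (u :: L1) e = ∑ t : Fin 3, x ^ ls e u t * Z x L1 (sm e u t) := rfl
    rw [List.cons_append, z1, z2, sum_mul]
    refine sum_congr rfl fun t _ => ?_
    rw [key t]
    ring

end Pool.Agent.CY
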